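import Pool.Agent.H68.LP.Stm

set_option autoImplicit false

/-! Crew LP, part CON. -/

namespace Pool.Agent.H19.LP

open Quaternion Pool.Agent.H68.LP

attribute [local instance 100] LieRing.ofAssociativeRing

theorem t_CON : S_CON := by
  intro K _ _ p g hg a ha v hv
  have h1 : g * star g = ((normSq g : K) : ℍ[K]) := Quaternion.self_mul_star g
  have h2 : star g * g = ((normSq g : K) : ℍ[K]) := Quaternion.star_mul_self g
  obtain ⟨n, hn⟩ : ∃ n : K, n = normSq g := ⟨_, rfl⟩
  rw [← hn] at h1 h2 hg
  let f : ℍ[K] →ₗ[K] ℍ[K] :=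
    { toFun := fun x => n⁻¹ • (g * x * star g)
      map_add' := fun x y => by rw [mul_add, add_mul, smul_add]
      map_smul' := fun c x => by
        rw [RingHom.id_apply, mul_smul_comm, smul_mul_assoc, smul_comm] }
  have hf1 : f 1 = 1 := by
    show n⁻¹ • (g * 1 * star g) = 1
    rw [mul_one, h1, ← Quaternion.coe_smul, smul_eq_mul, inv_mul_cancel₀ hg, Quaternion.coe_one]
  have hfm : ∀ x y, f (x * y) = f x * f y := by
    intro x y
    show n⁻¹ • (g * (x * y) * star g) = (n⁻¹ • (g * x * star g)) * (n⁻¹ • (g * y * star g))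
    rw [smul_mul_assoc, mul_smul_comm]
    congr 1
    have e : g * x * star g * (g * y * star g) = g * x * (star g * g) * (y * star g) := by
      simp only [mul_assoc]
    rw [e, h2, ← Quaternion.coe_commutes, Quaternion.coe_mul_eq_smul, smul_mul_assoc, smul_smul,
      inv_mul_cancel₀ hg, one_smul]
    simp only [mul_assoc]
  let φ : ℍ[K] →ₐ[K] ℍ[K] := AlgHom.ofLinearMap f hf1 hfm
  have hφ : ∀ x, φ x = n⁻¹ • (g * x * star g) := fun x => rfl
  refine ⟨fun i => φ (a i), fun i => ?_, ?_⟩
  · show (φ (a i)).re = 0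
    rw [hφ]
    have := ha i
    simp only [Quaternion.re_smul, Quaternion.re_mul, Quaternion.imI_mul, Quaternion.imJ_mul,
      Quaternion.imK_mul, Quaternion.re_star, Quaternion.imI_star, Quaternion.imJ_star,
      Quaternion.imK_star, this, smul_eq_mul]
    ring
  · have h3 := ev_map (φ.toLieHom) a p
    have h4 : (fun i => φ.toLieHom (a i)) = fun i => φ (a i) := rfl
    rw [h4] at h3
    rw [← h3]
    show φ (ev a p) = v
    rw [hφ, ← hv, mul_assoc, h1, ← Quaternion.coe_commutes, Quaternion.coe_mul_eq_smul, smul_smul,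
      inv_mul_cancel₀ hg, one_smul]

end Pool.Agent.H19.LP
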