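import Pool.Agent.H68.LP.Stm

set_option autoImplicit false

/-! Crew LP, part EXA. -/

namespace Pool.Agent.H19.LP

open Quaternion Pool.Agent.H68.LP

attribute [local instance 100] LieRing.ofAssociativeRing

/-- the pure quaternion with the given coordinates -/
def pq {K : Type} [Field K] (u1 u2 u3 : K) : ℍ[K] := ⟨0, u1, u2, u3⟩

theorem pq_re {K : Type} [Field K] (u1 u2 u3 : K) : (pq u1 u2 u3).re = 0 := rfl
theorem pq_imI {K : Type} [Field K] (u1 u2 u3 : K) : (pq u1 u2 u3).imI = u1 := rfl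
theorem pq_imJ {K : Type} [Field K] (u1 u2 u3 : K) : (pq u1 u2 u3).imJ = u2 := rfl
theorem pq_imK {K : Type} [Field K] (u1 u2 u3 : K) : (pq u1 u2 u3).imK = u3 := rfl

theorem eq_pq {K : Type} [Field K] (x : ℍ[K]) (hx : x.re = 0) : x = pq x.imI x.imJ x.imK := by
  apply Quaternion.ext
  · exact hx
  · rfl
  · rfl
  · rfl

theorem br {K : Type} [Field K] (u1 u2 u3 v1 v2 v3 : K) :
    ⁅pq u1 u2 u3, pq v1 v2 v3⁆ =
      pq (2 * (u2 * v3 - u3 * v2)) (2 * (u3 * v1 - u1 * v3)) (2 * (u1 * v2 - u2 * v1)) := by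
  rw [Ring.lie_def]
  apply Quaternion.ext
  · simp only [Quaternion.re_sub, Quaternion.re_mul, pq_re, pq_imI, pq_imJ, pq_imK]; ring
  · simp only [Quaternion.imI_sub, Quaternion.imI_mul, pq_re, pq_imI, pq_imJ, pq_imK]; ring
  · simp only [Quaternion.imJ_sub, Quaternion.imJ_mul, pq_re, pq_imI, pq_imJ, pq_imK]; ring
  · simp only [Quaternion.imK_sub, Quaternion.imK_mul, pq_re, pq_imI, pq_imJ, pq_imK]; ring

theorem key {K : Type} [Field K] (x y : ℍ[K]) (hx : x.re = 0) (hy : y.re = 0) :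
    ⁅⁅⁅x, y⁆, x⁆, ⁅⁅x, y⁆, y⁆⁆ = (4 * normSq ⁅x, y⁆) • ⁅x, y⁆ := by
  rw [eq_pq x hx, eq_pq y hy]
  generalize x.imI = x1
  generalize x.imJ = x2
  generalize x.imK = x3
  generalize y.imI = y1
  generalize y.imJ = y2
  generalize y.imK = y3
  rw [br x1, br, br, br, Quaternion.normSq_def']
  apply Quaternion.ext
  · simp only [Quaternion.re_smul, pq_re, smul_zero]
  · simp only [Quaternion.imI_smul, pq_re, pq_imI, pq_imJ, pq_imK, smul_eq_mul]; ring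
  · simp only [Quaternion.imJ_smul, pq_re, pq_imI, pq_imJ, pq_imK, smul_eq_mul]; ring
  · simp only [Quaternion.imK_smul, pq_re, pq_imI, pq_imJ, pq_imK, smul_eq_mul]; ring

theorem t_EXA : S_EXA := by
  intro K _ _
  have hev : ∀ a : ℕ → ℍ[K], ev a (p0 K) = ⁅⁅⁅a 0, a 1⁆, a 0⁆, ⁅⁅a 0, a 1⁆, a 1⁆⁆ := by
    intro a
    unfold p0
    simp only [ev_lie, ev_of]
  have w0 : IsWord K {0} (FreeLieAlgebra.of K 0) := IsWord.letter 0
  have w1 : IsWord K {1} (FreeLieAlgebra.of K 1) := IsWord.letter 1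
  refine ⟨⟨6, Submodule.subset_span ⟨_, ?_, IsWord.bracket (IsWord.bracket (IsWord.bracket w0 w1) w0)
    (IsWord.bracket (IsWord.bracket w0 w1) w1)⟩⟩, ?_, ?_, ?_, ?_, ?_, ?_⟩
  · rfl
  · refine ⟨fun i => if i = 0 then pq 1 0 0 else pq 0 1 0, fun i => ?_, ?_⟩
    · show (if i = 0 then pq 1 0 0 else pq 0 1 0 : ℍ[K]).re = 0
      split_ifs <;> rfl
    · rw [hev]
      show normSq ⁅⁅⁅(pq 1 0 0 : ℍ[K]), pq 0 1 0⁆, pq 1 0 0⁆, ⁅⁅(pq 1 0 0 : ℍ[K]), pq 0 1 0⁆,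
        pq 0 1 0⁆⁆ ≠ 0
      rw [br 1, br, br, br, Quaternion.normSq_def']
      simp only [pq_re, pq_imI, pq_imJ, pq_imK]
      norm_num
  · intro a ha h
    rw [hev, key _ _ (ha 0) (ha 1)] at h
    rw [hev, key _ _ (ha 0) (ha 1)]
    rw [Quaternion.normSq_smul] at h
    obtain ⟨N, hN⟩ : ∃ N : K, N = normSq ⁅a 0, a 1⁆ := ⟨_, rfl⟩
    rw [← hN] at h ⊢
    have h4 : (4 : K) ≠ 0 := by norm_num
    have hN0 : N = 0 := by
      rcases mul_eq_zero.1 h with h | h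
      · have := (pow_eq_zero_iff (two_ne_zero)).1 h
        exact (mul_eq_zero.1 this).resolve_left h4
      · exact h
    rw [hN0, mul_zero, zero_smul]
  · exact ⟨1, Submodule.subset_span ⟨{0}, rfl, w0⟩⟩
  · exact ⟨{0}, Submodule.subset_span w0⟩
  · exact ⟨0, Submodule.zero_mem _⟩
  · exact ⟨∅, Submodule.zero_mem _⟩

end Pool.Agent.H19.LP
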